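import Mathlib

set_option autoImplicit false

/-! Digit sums of multiples of `n`: common lemmas. -/

namespace Pool.Agent.H76DS

/-- the digit sum of `N` in base `b` -/
def ds (b N : ℕ) : ℕ := (Nat.digits b N).sum

lemma ds_zero (b : ℕ) : ds b 0 = 0 := by simp [ds]

lemma ds_cons {b a Q : ℕ} (hb : 2 ≤ b) (ha : a < b) : ds b (b * Q + a) = a + ds b Q := by
  rcases Nat.eq_zero_or_pos (b * Q + a) with h | h
  · have h1 : a = 0 := by omega
    have h2 : b * Q = 0 := by omega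
    have h3 : Q = 0 := by
      rcases Nat.mul_eq_zero.mp h2 with h4 | h4
      · omega
      · exact h4
    subst h1 h3
    simp [ds]
  · unfold ds
    rw [Nat.digits_def' (by omega) h]
    have h1 : (b * Q + a) % b = a := by
      rw [Nat.mul_add_mod]
      exact Nat.mod_eq_of_lt ha
    have h2 : (b * Q + a) / b = Q := by
      rw [Nat.mul_add_div (by omega), Nat.div_eq_of_lt ha, Nat.add_zero]
    rw [h1, h2]
    simp

lemma ds_mul_base {b Q : ℕ} (hb : 2 ≤ b) : ds b (b * Q) = ds b Q := by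
  have h := ds_cons (b := b) (a := 0) (Q := Q) hb (by omega)
  simpa using h

lemma ds_mul_pow {b Q : ℕ} (hb : 2 ≤ b) (k : ℕ) : ds b (b ^ k * Q) = ds b Q := by
  induction k with
  | zero => simp
  | succ k ih => rw [pow_succ', mul_assoc, ds_mul_base hb, ih]

lemma ds_pos {b N : ℕ} (h : 0 < ds b N) : 0 < N := by
  rcases Nat.eq_zero_or_pos N with h1 | h1
  · subst h1
    simp [ds] at h
  · exact h1

lemma ds_pow_add_one {b X M : ℕ} (hb : 2 ≤ b) (hM : 1 ≤ M) : ds b (b ^ M * X + 1) = ds b X + 1 := by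
  obtain ⟨m, rfl⟩ : ∃ m, M = m + 1 := ⟨M - 1, by omega⟩
  rw [pow_succ', mul_assoc, ds_cons hb (by omega), ds_mul_pow hb, Nat.add_comm]

/-- `b^K` is periodic modulo `n`. -/
lemma exists_period (b : ℕ) {n : ℕ} (hn : 1 ≤ n) :
    ∃ K M : ℕ, 1 ≤ M ∧ b ^ (K + M) ≡ b ^ K [MOD n] := by
  have : NeZero n := ⟨by omega⟩
  obtain ⟨i, j, hij, h⟩ := Finite.exists_ne_map_eq_of_infinite (fun i : ℕ => ((b : ZMod n)) ^ i)
  rcases Nat.lt_or_ge i j with h1 | h1
  · refine ⟨i, j - i, by omega, ?_⟩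
    have h2 : i + (j - i) = j := by omega
    rw [h2]
    apply (ZMod.natCast_eq_natCast_iff _ _ _).mp
    push_cast
    exact h.symm
  · refine ⟨j, i - j, by omega, ?_⟩
    have h2 : j + (i - j) = i := by omega
    rw [h2]
    apply (ZMod.natCast_eq_natCast_iff _ _ _).mp
    push_cast
    exact h

lemma add_ones {b n K M : ℕ} (hb : 2 ≤ b) (hM : 1 ≤ M) (h : b ^ (K + M) ≡ b ^ K [MOD n]) (X r : ℕ) :
    ∃ Y, ds b Y = ds b X + r ∧ b ^ K * Y ≡ b ^ K * (X + r) [MOD n] := by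
  induction r with
  | zero => exact ⟨X, by simp, by simpa using Nat.ModEq.refl _⟩
  | succ r ih =>
    obtain ⟨Y, h1, h2⟩ := ih
    refine ⟨b ^ M * Y + 1, ?_, ?_⟩
    · rw [ds_pow_add_one hb hM, h1]
      ring
    · have e1 : b ^ K * (b ^ M * Y + 1) = b ^ (K + M) * Y + b ^ K := by
        rw [pow_add]
        ring
      have e2 : b ^ K * (X + (r + 1)) = b ^ K * (X + r) + b ^ K := by ring
      rw [e1, e2]
      apply Nat.ModEq.add_right
      exact (h.mul_right Y).trans h2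

/-- two positions suffice -/
lemma exists_of_two {b n u y : ℕ} (hb : 2 ≤ b) (hn : 1 ≤ n) (hu : 0 < u) (hy : y ≤ u)
    (h : n ∣ u + (b - 1) * y) : ∃ N : ℕ, 0 < N ∧ n ∣ N ∧ ds b N = u := by
  obtain ⟨K, M, hM, hKM⟩ := exists_period b hn
  obtain ⟨Y1, h1, h2⟩ := add_ones hb hM hKM 0 y
  obtain ⟨Y2, h3, h4⟩ := add_ones hb hM hKM (b * Y1) (u - y)
  have h5 : ds b (b ^ K * Y2) = u := by
    rw [ds_mul_pow hb, h3, ds_mul_base hb, h1, ds_zero]
    omega
  refine ⟨b ^ K * Y2, ds_pos (by rw [h5]; exact hu), ?_, h5⟩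
  have h6 : b ^ K * (b * Y1 + (u - y)) ≡ b ^ K * (b * y + (u - y)) [MOD n] := by
    have e1 : b ^ K * (b * Y1 + (u - y)) = b * (b ^ K * Y1) + b ^ K * (u - y) := by ring
    have e2 : b ^ K * (b * y + (u - y)) = b * (b ^ K * (0 + y)) + b ^ K * (u - y) := by ring
    rw [e1, e2]
    exact (h2.mul_left b).add_right _
  have h7 : b * y + (u - y) = u + (b - 1) * y := by
    obtain ⟨c, rfl⟩ : ∃ c, b = c + 1 := ⟨b - 1, by omega⟩
    obtain ⟨v, rfl⟩ : ∃ v, u = y + v := ⟨u - y, by omega⟩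
    simp only [Nat.add_sub_cancel, Nat.add_sub_cancel_left]
    ring
  have h8 : n ∣ b ^ K * (b * y + (u - y)) := by
    rw [h7]
    exact h.mul_left _
  exact (Nat.modEq_zero_iff_dvd).mp ((h4.trans h6).trans ((Nat.modEq_zero_iff_dvd).mpr h8))

/-- every large multiple of `d` is attained -/
lemma exists_of_large {b n u : ℕ} (hb : 2 ≤ b) (hn : 1 ≤ n) (hu : 0 < u)
    (hd : Nat.gcd (b - 1) n ∣ u) (h : n / Nat.gcd (b - 1) n ≤ u + 1) :
    ∃ N : ℕ, 0 < N ∧ n ∣ N ∧ ds b N = u := by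
  have hdpos : 0 < Nat.gcd (b - 1) n := Nat.gcd_pos_of_pos_right _ (by omega)
  obtain ⟨β, m, hco, hβ, hm⟩ : ∃ β m : ℕ, Nat.Coprime β m ∧ b - 1 = β * Nat.gcd (b - 1) n ∧
      n = m * Nat.gcd (b - 1) n := Nat.exists_coprime (b - 1) n
  set d := Nat.gcd (b - 1) n with hdd
  obtain ⟨v, rfl⟩ := hd
  have hmd : n / d = m := by
    conv_lhs => rw [hm]
    exact Nat.mul_div_cancel _ hdpos
  rw [hmd] at h
  have hmpos : 0 < m := by
    rcases Nat.eq_zero_or_pos m with h1 | h1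
    · rw [h1] at hm
      omega
    · exact h1
  have : NeZero m := ⟨by omega⟩
  set z : ZMod m := -(v : ZMod m) * (β : ZMod m)⁻¹ with hz
  have hlt : z.val < m := ZMod.val_lt z
  have hdvd : m ∣ v + β * z.val := by
    apply (ZMod.natCast_eq_zero_iff _ _).mp
    push_cast
    rw [ZMod.natCast_zmod_val]
    have h1 : (β : ZMod m) * (β : ZMod m)⁻¹ = 1 := ZMod.coe_mul_inv_eq_one β hco
    rw [hz]
    calc (v : ZMod m) + (β : ZMod m) * (-(v : ZMod m) * (β : ZMod m)⁻¹)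
        = (v : ZMod m) - (v : ZMod m) * ((β : ZMod m) * (β : ZMod m)⁻¹) := by ring
      _ = 0 := by rw [h1]; ring
  refine exists_of_two (y := z.val) hb hn hu (by omega) ?_
  rw [hβ]
  have e : d * v + β * d * z.val = (v + β * z.val) * d := by ring
  rw [e]
  conv_lhs => rw [hm]
  exact Nat.mul_dvd_mul_right hdvd d

/-- adding `b - 1` -/
lemma exists_add {b n u : ℕ} (hb : 2 ≤ b) (hn : 1 ≤ n)
    (h : ∃ N : ℕ, 0 < N ∧ n ∣ N ∧ ds b N = u) :
    ∃ N : ℕ, 0 < N ∧ n ∣ N ∧ ds b N = u + (b - 1) := by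
  obtain ⟨N, hN, hnN, hdsN⟩ := h
  obtain ⟨j, N1, h1, h2⟩ := Nat.exists_eq_pow_mul_and_not_dvd (n := N) (by omega) b (by omega)
  obtain ⟨K, M, hM, hKM⟩ := exists_period b hn
  have hmod : N1 % b ≠ 0 := fun h => h1 (Nat.dvd_of_mod_eq_zero h)
  have hmodlt : N1 % b < b := Nat.mod_lt _ (by omega)
  have hN1 : b * (N1 / b) + N1 % b = N1 := Nat.div_add_mod N1 b
  have hds1 : ds b N1 = u := by
    rw [← hdsN, h2, ds_mul_pow hb]
  have hds2 : ds b (N1 - 1) + 1 = u := by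
    have e1 : N1 - 1 = b * (N1 / b) + (N1 % b - 1) := by omega
    have e2 : ds b N1 = N1 % b + ds b (N1 / b) := by
      conv_lhs => rw [← hN1]
      exact ds_cons hb hmodlt
    rw [e1, ds_cons hb (by omega)]
    omega
  obtain ⟨Y, h3, h4⟩ := add_ones hb hM hKM (b * (N1 - 1)) b
  have h5 : ds b (b ^ j * (b ^ K * Y)) = u + (b - 1) := by
    rw [ds_mul_pow hb, ds_mul_pow hb, h3, ds_mul_base hb]
    omega
  refine ⟨b ^ j * (b ^ K * Y), ds_pos (by rw [h5]; omega), ?_, h5⟩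
  have h6 : b * (N1 - 1) + b = b * N1 := by
    obtain ⟨c, rfl⟩ : ∃ c, N1 = c + 1 := ⟨N1 - 1, by omega⟩
    simp only [Nat.add_sub_cancel]
    ring
  rw [h6] at h4
  have h7 : n ∣ b ^ j * (b ^ K * (b * N1)) := by
    have e : b ^ j * (b ^ K * (b * N1)) = (b ^ K * b) * (b ^ j * N1) := by ring
    rw [e, ← h2]
    exact hnN.mul_left _
  exact (Nat.modEq_zero_iff_dvd).mp ((h4.mul_left (b ^ j)).trans ((Nat.modEq_zero_iff_dvd).mpr h7))

lemma exists_add_mul {b n u : ℕ} (hb : 2 ≤ b) (hn : 1 ≤ n)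
    (h : ∃ N : ℕ, 0 < N ∧ n ∣ N ∧ ds b N = u) (k : ℕ) :
    ∃ N : ℕ, 0 < N ∧ n ∣ N ∧ ds b N = u + k * (b - 1) := by
  induction k with
  | zero => simpa using h
  | succ k ih =>
    have := exists_add hb hn ih
    rw [Nat.succ_mul, ← Nat.add_assoc]
    exact this

lemma ds_modEq {b : ℕ} (hb : 2 ≤ b) (N : ℕ) : N ≡ ds b N [MOD (b - 1)] := by
  rcases Nat.lt_or_ge b 3 with h | h
  · have : b - 1 = 1 := by omega
    rw [this]
    exact Nat.modEq_one
  · exact Nat.modEq_digits_sum (b - 1) b (by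
      obtain ⟨c, rfl⟩ : ∃ c, b = c + 3 := ⟨b - 3, by omega⟩
      have e : c + 3 - 1 = c + 2 := by omega
      rw [e]
      have e2 : c + 3 = 1 + (c + 2) := by omega
      rw [e2, Nat.add_mod_right]
      exact Nat.mod_eq_of_lt (by omega)) N

end Pool.Agent.H76DS
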