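import Mathlib
import Pool.Agent.H76DS.A

set_option autoImplicit false

/-! Digit sums: subadditivity, splitting, reduction of a multiple below `b ^ t`. -/

namespace Pool.Agent.H76DS

lemma ds_eq {b N : ℕ} (hb : 2 ≤ b) : ds b N = N % b + ds b (N / b) := by
  have h := ds_cons (b := b) (a := N % b) (Q := N / b) hb (Nat.mod_lt _ (by omega))
  rw [Nat.div_add_mod] at h
  exact h

lemma ds_one {b : ℕ} (hb : 2 ≤ b) : ds b 1 = 1 := by
  have h := ds_cons (b := b) (a := 1) (Q := 0) hb (by omega)
  simpa [ds_zero] using h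

lemma ds_add_le_aux {b : ℕ} (hb : 2 ≤ b) (s : ℕ) :
    ∀ x y : ℕ, x + y ≤ s → ds b (x + y) ≤ ds b x + ds b y := by
  induction s with
  | zero =>
    intro x y h
    have h1 : x = 0 := by omega
    have h2 : y = 0 := by omega
    subst h1 h2
    simp [ds_zero]
  | succ s ih =>
    intro x y h
    rcases Nat.eq_zero_or_pos (x + y) with h0 | h0
    · have h1 : x = 0 := by omega
      have h2 : y = 0 := by omega
      subst h1 h2
      simp [ds_zero]
    have hx : b * (x / b) + x % b = x := Nat.div_add_mod x b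
    have hy : b * (y / b) + y % b = y := Nat.div_add_mod y b
    have hxl : x % b < b := Nat.mod_lt _ (by omega)
    have hyl : y % b < b := Nat.mod_lt _ (by omega)
    have ex : ds b x = x % b + ds b (x / b) := ds_eq hb
    have ey : ds b y = y % b + ds b (y / b) := ds_eq hb
    have hxb : 2 * (x / b) ≤ b * (x / b) := Nat.mul_le_mul_right _ hb
    have hyb : 2 * (y / b) ≤ b * (y / b) := Nat.mul_le_mul_right _ hb
    rcases Nat.lt_or_ge (x % b + y % b) b with hc | hc
    · have e1 : x + y = b * (x / b + y / b) + (x % b + y % b) := by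
        rw [Nat.mul_add]
        omega
      have e2 : ds b (x + y) = (x % b + y % b) + ds b (x / b + y / b) := by
        conv_lhs => rw [e1]
        exact ds_cons hb hc
      have h3 : x / b + y / b ≤ s := by omega
      have h4 := ih (x / b) (y / b) h3
      omega
    · have e1 : x + y = b * ((x / b + y / b) + 1) + (x % b + y % b - b) := by
        rw [Nat.mul_add, Nat.mul_add]
        omega
      have e2 : ds b (x + y) = (x % b + y % b - b) + ds b ((x / b + y / b) + 1) := by
        conv_lhs => rw [e1]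
        exact ds_cons hb (by omega)
      have h3 : (x / b + y / b) + 1 ≤ s := by omega
      have h4 := ih (x / b + y / b) 1 h3
      have h5 := ih (x / b) (y / b) (by omega)
      rw [ds_one hb] at h4
      omega

lemma ds_add_le {b : ℕ} (hb : 2 ≤ b) (x y : ℕ) : ds b (x + y) ≤ ds b x + ds b y :=
  ds_add_le_aux hb (x + y) x y (le_refl _)

lemma ds_split {b : ℕ} (hb : 2 ≤ b) (t : ℕ) :
    ∀ q r : ℕ, r < b ^ t → ds b (b ^ t * q + r) = ds b q + ds b r := by
  induction t with
  | zero =>
    intro q r h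
    have : r = 0 := by
      rw [pow_zero] at h
      omega
    subst this
    simp [ds_zero]
  | succ t ih =>
    intro q r h
    have hr : b * (r / b) + r % b = r := Nat.div_add_mod r b
    have hrl : r % b < b := Nat.mod_lt _ (by omega)
    have er : ds b r = r % b + ds b (r / b) := ds_eq hb
    have hlt : r / b < b ^ t := by
      apply Nat.div_lt_of_lt_mul
      rw [← pow_succ']
      exact h
    have e1 : b ^ (t + 1) * q + r = b * (b ^ t * q + r / b) + r % b := by
      rw [pow_succ', Nat.mul_add]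
      rw [Nat.mul_assoc]
      omega
    rw [e1, ds_cons hb hrl, ih q (r / b) hlt, er]
    omega

/-- Reduction of a positive number below `b ^ t`, keeping its residue modulo `b ^ t - 1` and not
increasing the digit sum. -/
lemma reduce {b t : ℕ} (hb : 2 ≤ b) (ht : 1 ≤ t) (s : ℕ) : ∀ N : ℕ, N ≤ s → 0 < N →
    ∃ V : ℕ, 0 < V ∧ V < b ^ t ∧ V ≡ N [MOD (b ^ t - 1)] ∧ ds b V ≤ ds b N := by
  induction s with
  | zero =>
    intro N h1 h2
    omega
  | succ s ih =>
    intro N h1 h2
    rcases Nat.lt_or_ge N (b ^ t) with h | h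
    · exact ⟨N, h2, h, Nat.ModEq.refl _, le_refl _⟩
    · have hbt : 2 ≤ b ^ t := by
        calc 2 ≤ b := hb
          _ = b ^ 1 := (pow_one b).symm
          _ ≤ b ^ t := Nat.pow_le_pow_right (by omega) ht
      have hq : 0 < N / b ^ t := Nat.div_pos h (by omega)
      have hN : b ^ t * (N / b ^ t) + N % b ^ t = N := Nat.div_add_mod N (b ^ t)
      have hrl : N % b ^ t < b ^ t := Nat.mod_lt _ (by omega)
      have h3 : 2 * (N / b ^ t) ≤ b ^ t * (N / b ^ t) := Nat.mul_le_mul_right _ hbt
      have h10 : 0 < N / b ^ t + N % b ^ t := Nat.add_pos_left hq _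
      have h11 : N / b ^ t + N % b ^ t ≤ s := by
        generalize N / b ^ t = q at *
        generalize N % b ^ t = r at *
        generalize b ^ t * q = w at *
        omega
      obtain ⟨V, h4, h5, h6, h7⟩ := ih (N / b ^ t + N % b ^ t) h11 h10
      refine ⟨V, h4, h5, ?_, ?_⟩
      · refine h6.trans ?_
        have h8 : N = (N / b ^ t + N % b ^ t) + (b ^ t - 1) * (N / b ^ t) := by
          obtain ⟨c, hc⟩ : ∃ c, b ^ t = c + 1 := ⟨b ^ t - 1, by omega⟩
          rw [hc] at hN ⊢
          simp only [Nat.add_sub_cancel]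
          have : (c + 1) * (N / (c + 1)) = c * (N / (c + 1)) + N / (c + 1) := by ring
          omega
        conv_rhs => rw [h8]
        have h9 : (N / b ^ t + N % b ^ t) + (b ^ t - 1) * (N / b ^ t) ≡
            (N / b ^ t + N % b ^ t) + 0 [MOD (b ^ t - 1)] :=
          Nat.ModEq.add_left _ ((Nat.modEq_zero_iff_dvd).mpr (Nat.dvd_mul_right _ _))
        simpa using h9.symm
      · refine h7.trans ?_
        have h8 : ds b N = ds b (N / b ^ t) + ds b (N % b ^ t) := by
          conv_lhs => rw [← hN]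
          exact ds_split hb t _ _ hrl
        rw [h8]
        exact ds_add_le hb _ _

lemma sub_one_dvd_pow_sub_one (b t : ℕ) : b - 1 ∣ b ^ t - 1 := by
  have h := Nat.sub_dvd_pow_sub_pow b 1 t
  simpa using h

lemma ds_pos_of_pos {b N : ℕ} (hN : 0 < N) : 0 < ds b N := by
  rcases Nat.eq_zero_or_pos (ds b N) with h6 | h6
  · exfalso
    have h7 : (Nat.digits b N).sum = 0 := h6
    have h8 : Nat.digits b N ≠ [] := Nat.digits_ne_nil_iff_ne_zero.mpr (by omega)
    have h9 := Nat.getLast_digit_ne_zero b (m := N) (by omega)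
    have h10 : ∀ x ∈ Nat.digits b N, x = 0 := List.sum_eq_zero_iff.mp h7
    exact h9 (h10 _ (List.getLast_mem h8))
  · exact h6

/-- every `n` is a divisor of a power of `b` times a divisor of some `b ^ t - 1` -/
lemma exists_decomp (b : ℕ) {n : ℕ} (hb : 2 ≤ b) (hn : 1 ≤ n) :
    ∃ k t r m : ℕ, 1 ≤ t ∧ r ∣ b ^ k ∧ m ∣ b ^ t - 1 ∧ n = r * m := by
  obtain ⟨K, M, hM, hKM⟩ := exists_period b hn
  have h1 : n ∣ b ^ K * (b ^ M - 1) := by
    have h2 : b ^ K ≤ b ^ (K + M) := Nat.pow_le_pow_right (by omega) (by omega)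
    have h3 : n ∣ b ^ (K + M) - b ^ K := (Nat.modEq_iff_dvd' h2).mp hKM.symm
    have h4 : b ^ (K + M) - b ^ K = b ^ K * (b ^ M - 1) := by
      rw [pow_add, Nat.mul_sub, Nat.mul_one]
    rw [h4] at h3
    exact h3
  have hdpos : 0 < Nat.gcd n (b ^ K) := Nat.gcd_pos_of_pos_left _ (by omega)
  obtain ⟨m, q, hco, hm, hq⟩ : ∃ m q : ℕ, Nat.Coprime m q ∧ n = m * Nat.gcd n (b ^ K) ∧
      b ^ K = q * Nat.gcd n (b ^ K) := Nat.exists_coprime n (b ^ K)
  refine ⟨K, M, Nat.gcd n (b ^ K), m, hM, Nat.gcd_dvd_right _ _, ?_, ?_⟩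
  · have h5 : m * Nat.gcd n (b ^ K) ∣ (q * (b ^ M - 1)) * Nat.gcd n (b ^ K) := by
      rw [← hm]
      have h6 : q * (b ^ M - 1) * Nat.gcd n (b ^ K) = b ^ K * (b ^ M - 1) := by
        conv_rhs => rw [hq]
        ring
      rw [h6]
      exact h1
    have h7 : m ∣ q * (b ^ M - 1) := Nat.dvd_of_mul_dvd_mul_right hdpos h5
    exact hco.dvd_of_dvd_mul_left h7
  · rw [Nat.mul_comm]
    exact hm

end Pool.Agent.H76DS
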