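import Mathlib
import Pool.Agent.H76DS.A
import Pool.Agent.H76DS.B

set_option autoImplicit false

/-! Digit sums of multiples of `n`: the finite description and the case `m ∣ b ^ 2 - 1`. -/

namespace Pool.Agent.H76DS

/-- digit sums of the positive multiples of `n` -/
def OutH (b n : ℕ) : Set ℕ := {u | ∃ N : ℕ, 0 < N ∧ n ∣ N ∧ ds b N = u}

lemma fold {b n : ℕ} (h : b ^ 2 ≡ 1 [MOD n]) (L : List ℕ) :
    ∃ e o : ℕ, e + o = L.sum ∧ Nat.ofDigits b L ≡ e + b * o [MOD n] := by
  induction L with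
  | nil => exact ⟨0, 0, by simp, by simpa using Nat.ModEq.refl _⟩
  | cons a L ih =>
    obtain ⟨e, o, h1, h2⟩ := ih
    refine ⟨a + o, e, ?_, ?_⟩
    · rw [List.sum_cons, ← h1]
      omega
    · rw [Nat.ofDigits_cons]
      have h3 : a + b * Nat.ofDigits b L ≡ a + b * (e + b * o) [MOD n] :=
        (h2.mul_left b).add_left a
      refine h3.trans ?_
      have e1 : a + b * (e + b * o) = (a + b * e) + b ^ 2 * o := by ring
      have e2 : a + o + b * e = (a + b * e) + 1 * o := by ring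
      rw [e1, e2]
      exact (h.mul_right o).add_left _

theorem finite_description : ∀ b n : ℕ, 2 ≤ b → 1 ≤ n →
    (∃ k t r m : ℕ, 1 ≤ t ∧ r ∣ b ^ k ∧ m ∣ b ^ t - 1 ∧ n = r * m) ∧
    (∀ k t r m : ℕ, 1 ≤ t → r ∣ b ^ k → m ∣ b ^ t - 1 → n = r * m →
      OutH b n = {u | ∃ j i : ℕ, 1 ≤ j ∧ j * m ≤ b ^ t - 1 ∧
        u = ds b (j * m) + (b - 1) * i}) := by
  intro b n hb hn
  refine ⟨exists_decomp b hb hn, ?_⟩
  intro k t r m ht hr hm hnrm
  have hmpos : 1 ≤ m := by
    rcases Nat.eq_zero_or_pos m with h | h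
    · rw [h] at hnrm
      omega
    · exact h
  ext u
  constructor
  · rintro ⟨N, h1, h2, h3⟩
    have h3' : ds b N = u := h3
    have hmN : m ∣ N := by
      rw [hnrm] at h2
      exact (Nat.dvd_mul_left m r).trans h2
    obtain ⟨V, h4, h5, h6, h7⟩ := reduce hb ht N N (le_refl _) h1
    have hmV : m ∣ V := (Nat.ModEq.dvd_iff h6 hm).mpr hmN
    obtain ⟨j, hj⟩ := hmV
    have hjm : V = j * m := by rw [hj, Nat.mul_comm]
    have hj1 : 1 ≤ j := by
      rcases Nat.eq_zero_or_pos j with h | h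
      · rw [h] at hjm
        omega
      · exact h
    have h8 : ds b V ≡ u [MOD (b - 1)] := by
      have h9 : V ≡ N [MOD (b - 1)] := h6.of_dvd (sub_one_dvd_pow_sub_one b t)
      have h10 : V ≡ ds b V [MOD (b - 1)] := ds_modEq hb V
      have h11 : N ≡ ds b N [MOD (b - 1)] := ds_modEq hb N
      rw [h3'] at h11
      exact h10.symm.trans (h9.trans h11)
    have h12 : ds b V ≤ u := by
      rw [← h3']
      exact h7
    have h13 : (b - 1) ∣ u - ds b V := (Nat.modEq_iff_dvd' h12).mp h8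
    obtain ⟨i, hi⟩ := h13
    refine ⟨j, i, hj1, ?_, ?_⟩
    · rw [← hjm]
      omega
    · rw [← hjm, ← hi]
      omega
  · rintro ⟨j, i, h1, h2, h3⟩
    have hV : 0 < j * m := Nat.mul_pos h1 hmpos
    obtain ⟨N, h4, h5, h6⟩ := exists_add_mul (u := ds b (j * m)) (n := m) hb hmpos
      ⟨j * m, hV, Nat.dvd_mul_left m j, rfl⟩ i
    refine ⟨b ^ k * N, Nat.mul_pos (Nat.pow_pos (by omega)) h4, ?_, ?_⟩
    · rw [hnrm]
      exact Nat.mul_dvd_mul hr h5
    · have h8 : ds b (b ^ k * N) = u := by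
        rw [ds_mul_pow hb, h6, h3, Nat.mul_comm i]
      exact h8

theorem order_two : ∀ b k r n : ℕ, 2 ≤ b → r ∣ b ^ k → n ∣ b ^ 2 - 1 → ∀ u : ℕ,
    u ∈ OutH b (r * n) ↔
      0 < u ∧ Nat.gcd (b - 1) n ∣ u ∧
        (n / Nat.gcd (b - 1) n ≤ u ∨ (2 ∣ u ∧ n ∣ (b + 1) * (u / 2))) := by
  intro b k r n hb hr hn u
  have hb2 : 0 < b ^ 2 - 1 := by
    have : 2 ^ 2 ≤ b ^ 2 := Nat.pow_le_pow_left hb 2
    omega
  have hnpos : 1 ≤ n := Nat.pos_of_dvd_of_pos hn hb2
  have hsq : b ^ 2 ≡ 1 [MOD n] := by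
    have h1 : 1 ≤ b ^ 2 := Nat.one_le_pow _ _ (by omega)
    exact ((Nat.modEq_iff_dvd' h1).mpr hn).symm
  constructor
  · rintro ⟨N, h1, h2, h3⟩
    have h3' : ds b N = u := h3
    have hnN : n ∣ N := (Nat.dvd_mul_left n r).trans h2
    have h4 : N ≡ u [MOD (b - 1)] := by
      rw [← h3']
      exact ds_modEq hb N
    have h5 : 0 < u := by
      rcases Nat.eq_zero_or_pos u with h6 | h6
      · exfalso
        subst h6
        have h7 : (Nat.digits b N).sum = 0 := h3
        have h8 : Nat.digits b N ≠ [] := Nat.digits_ne_nil_iff_ne_zero.mpr (by omega)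
        have h9 := Nat.getLast_digit_ne_zero b (m := N) (by omega)
        have h10 : ∀ x ∈ Nat.digits b N, x = 0 := List.sum_eq_zero_iff.mp h7
        exact h9 (h10 _ (List.getLast_mem h8))
      · exact h6
    have hdu : Nat.gcd (b - 1) n ∣ u :=
      (Nat.ModEq.dvd_iff h4 (Nat.gcd_dvd_left _ _)).mp ((Nat.gcd_dvd_right _ _).trans hnN)
    refine ⟨h5, hdu, ?_⟩
    rcases Nat.lt_or_ge u (n / Nat.gcd (b - 1) n) with hlt | hge
    · right
      obtain ⟨e, o, heo, hmod⟩ := fold hsq (Nat.digits b N)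
      rw [Nat.ofDigits_digits] at hmod
      have heo' : e + o = u := by rw [heo]; exact h3
      have hdiv : n ∣ e + b * o := (Nat.ModEq.dvd_iff hmod (dvd_refl n)).mp hnN
      have hdpos : 0 < Nat.gcd (b - 1) n := Nat.gcd_pos_of_pos_right _ (by omega)
      obtain ⟨β, m, hco, hβ, hm⟩ : ∃ β m : ℕ, Nat.Coprime β m ∧ b - 1 = β * Nat.gcd (b - 1) n ∧
          n = m * Nat.gcd (b - 1) n := Nat.exists_coprime (b - 1) n
      have hmd : n / Nat.gcd (b - 1) n = m := by
        conv_lhs => rw [hm]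
        rw [← hm]
        exact Nat.div_eq_of_eq_mul_left hdpos hm
      rw [hmd] at hlt
      have hmb : m ∣ b + 1 := by
        have h6 : b ^ 2 - 1 = (b - 1) * (b + 1) := by
          obtain ⟨c, rfl⟩ : ∃ c, b = c + 1 := ⟨b - 1, by omega⟩
          have : (c + 1) ^ 2 = c * (c + 1 + 1) + 1 := by ring
          rw [this]
          simp
        have h7 : m * Nat.gcd (b - 1) n ∣ (β * (b + 1)) * Nat.gcd (b - 1) n := by
          rw [← hm]
          have h8 : β * (b + 1) * Nat.gcd (b - 1) n = (b - 1) * (b + 1) := by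
            conv_rhs => rw [hβ]
            ring
          rw [h8, ← h6]
          exact hn
        have h9 : m ∣ β * (b + 1) := Nat.dvd_of_mul_dvd_mul_right hdpos h7
        exact hco.symm.dvd_of_dvd_mul_left h9
      have hmn : m ∣ n := ⟨Nat.gcd (b - 1) n, hm⟩
      have h10 : (m : ℤ) ∣ (e : ℤ) - o := by
        have h11 : (m : ℤ) ∣ (e : ℤ) + b * o := by exact_mod_cast hmn.trans hdiv
        have h12 : (m : ℤ) ∣ (b : ℤ) + 1 := by exact_mod_cast hmb
        have h13 : (e : ℤ) - o = (e + b * o) - (b + 1) * o := by ring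
        rw [h13]
        exact dvd_sub h11 (h12.mul_right _)
      have h14 : (e : ℤ) - o = 0 := by
        apply Int.eq_zero_of_abs_lt_dvd h10
        rw [abs_lt]
        constructor <;> omega
      have h15 : e = o := by omega
      have h16 : u = 2 * o := by omega
      refine ⟨⟨o, h16⟩, ?_⟩
      have h17 : u / 2 = o := by omega
      rw [h17]
      have h18 : (b + 1) * o = e + b * o := by rw [h15]; ring
      rw [h18]
      exact hdiv
    · left
      exact hge
  · rintro ⟨h1, h2, h3⟩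
    have hex : ∃ N : ℕ, 0 < N ∧ n ∣ N ∧ ds b N = u := by
      rcases h3 with h3 | ⟨h3, h4⟩
      · exact exists_of_large hb hnpos h1 h2 (by omega)
      · refine exists_of_two (y := u / 2) hb hnpos h1 (by omega) ?_
        have h5 : u + (b - 1) * (u / 2) = (b + 1) * (u / 2) := by
          obtain ⟨v, rfl⟩ := h3
          obtain ⟨c, rfl⟩ : ∃ c, b = c + 1 := ⟨b - 1, by omega⟩
          have : 2 * v / 2 = v := by omega
          rw [this]
          simp only [Nat.add_sub_cancel]
          ring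
        rw [h5]
        exact h4
    obtain ⟨N, h5, h6, h7⟩ := hex
    refine ⟨b ^ k * N, ?_, ?_, ?_⟩
    · exact Nat.mul_pos (Nat.pow_pos (by omega)) h5
    · exact Nat.mul_dvd_mul hr h6
    · have h8 : ds b (b ^ k * N) = u := by rw [ds_mul_pow hb]; exact h7
      exact h8

end Pool.Agent.H76DS
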